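import Pool.Agent.Helper82.HP.Tri

set_option autoImplicit false

/-!
A contact conic of a smooth plane sextic gives a representation of the sextic as a determinant
(project OS, piece X14); the same argument as for tritangent lines.
-/

namespace Pool.Agent.Helper82.OS

open MvPolynomial Pool.Agent.Helper29.HP Pool.Agent.Helper29.HP.Six
open Pool.Agent.Helper29 Pool.Agent.Helper82.HP Pool.Agent.Helper5.HP

/-- linear algebra: an ideal of colength at most six contains a cubic not divisible by `g` -/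
theorem exists_cubic6 {g : P3} (hg : g.IsHomogeneous 2) (hg0 : g ≠ 0) (b : Ideal P2)
    (hfin : FiniteDimensional ℂ (P2 ⧸ b)) (hdim : Module.finrank ℂ (P2 ⧸ b) ≤ 6) :
    ∃ s : P3, s.IsHomogeneous 3 ∧ dh2 s ∈ b ∧ ¬ g ∣ s := by
  classical
  by_contra hcon
  push Not at hcon
  have hf3 : FiniteDimensional ℂ (homogeneousSubmodule (Fin 3) ℂ 3) := by
    apply Module.finite_of_finrank_pos
    rw [Helper16.finrank_hom3]; decide
  have hf2 : FiniteDimensional ℂ (homogeneousSubmodule (Fin 3) ℂ 1) := by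
    apply Module.finite_of_finrank_pos
    rw [Helper16.finrank_hom3]; decide
  let F : homogeneousSubmodule (Fin 3) ℂ 3 →ₗ[ℂ] (P2 ⧸ b) :=
    (Ideal.Quotient.mkₐ ℂ b).toLinearMap ∘ₗ dh2.toLinearMap ∘ₗ
      (homogeneousSubmodule (Fin 3) ℂ 3).subtype
  have hF : ∀ x, F x = 0 ↔ dh2 (x : P3) ∈ b := by
    intro x
    rw [← Ideal.Quotient.eq_zero_iff_mem]
    rfl
  let G : homogeneousSubmodule (Fin 3) ℂ 1 →ₗ[ℂ] homogeneousSubmodule (Fin 3) ℂ 3 :=
    { toFun := fun x => ⟨g * x.1, by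
        have h1 : (g * x.1).IsHomogeneous (2 + 1) := hg.mul x.2
        exact h1⟩
      map_add' := fun x y => by
        ext1
        simp only [Submodule.coe_add]
        ring
      map_smul' := fun a x => by
        ext1
        simp only [Submodule.coe_smul, RingHom.id_apply, mul_smul_comm] }
  have hle : LinearMap.ker F ≤ LinearMap.range G := by
    intro x hx
    rw [LinearMap.mem_ker, hF] at hx
    obtain ⟨q, hq⟩ := hcon x.1 x.2 hx
    by_cases hx0 : (x : P3) = 0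
    · have : x = 0 := Subtype.ext hx0
      rw [this]
      exact Submodule.zero_mem _
    · have h1 : (x : P3).IsHomogeneous 3 := x.2
      rw [hq] at h1 hx0
      obtain ⟨a, b, ha, hb, hab⟩ := Helper16.hom_factor h1 hx0
      have ha1 : a = 2 := ha.inj_right hg hg0
      have hb1 : b = 1 := by omega
      subst hb1
      exact ⟨⟨q, hb⟩, Subtype.ext hq.symm⟩
  have h1 := LinearMap.finrank_range_add_finrank_ker F
  have h2 : Module.finrank ℂ (LinearMap.range F) ≤ 6 :=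
    (Submodule.finrank_le _).trans hdim
  have h3 : Module.finrank ℂ (LinearMap.ker F) ≤ 3 := by
    refine (Submodule.finrank_mono hle).trans ((LinearMap.finrank_range_le G).trans ?_)
    rw [Helper16.finrank_hom3]; decide
  rw [Helper16.finrank_hom3] at h1
  have h4 : (3 + 2).choose 2 = 10 := by decide
  omega

theorem con_affine (δ h t g : P3) {m : ℕ} (hδ : δ.IsHomogeneous 6)
    (hsm : ∀ z : Fin 3 → ℂ, z ≠ 0 → eval z δ = 0 → ∃ i, eval z (pderiv i δ) ≠ 0)
    (hh : h.IsHomogeneous m) (hδh : ¬ δ ∣ h) (hev : EvenOn δ h) (hg : g.IsHomogeneous 2)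
    (hg0 : g ≠ 0) (hsq : Squarefree g) (hth : δ ∣ t ^ 2 - h * g)
    (hinf : ∀ z : Fin 3 → ℂ, z ≠ 0 → z 0 = 0 → eval z δ = 0 → eval z g ≠ 0) :
    ∃ A B : P3, δ = g * A - B ^ 2 := by
  classical
  have hirr : Irreducible δ := irreducible_of_smooth (by norm_num) hδ hsm
  have h0 : ¬ X 0 ∣ δ := not_X_dvd hirr hδ
  have hδg : ¬ δ ∣ g := by
    rintro ⟨q, hq⟩
    have hq0 : q ≠ 0 := by
      rintro rfl
      exact hg0 (by rw [hq, mul_zero])
    have h1 := hg.totalDegree hg0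
    rw [hq, totalDegree_mul_of_isDomain hirr.ne_zero hq0, hδ.totalDegree hirr.ne_zero] at h1
    omega
  have hf : Irreducible (dh2 δ) := irreducible_dh2 hδ hirr h0
  have hfh : ¬ dh2 δ ∣ dh2 h := fun hd => hδh (dvd_of_dh2_dvd hδ hh hirr h0 hd)
  have hfg : ¬ dh2 δ ∣ dh2 g := fun hd => hδg (dvd_of_dh2_dvd hδ hg hirr h0 hd)
  have hrel : IsRelPrime (dh2 δ) (dh2 g) := hf.isRelPrime_iff_not_dvd.mpr hfg
  obtain ⟨hfin, hdim⟩ := bezout_dim (dh2 δ) (dh2 g) 6 2
    (Pool.Agent.Helper29.HP.totalDegree_dh2_le hδ)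
    (Pool.Agent.Helper29.HP.totalDegree_dh2_le hg) hrel
  have hprime : (Ideal.span {dh2 δ} : Ideal P2).IsPrime :=
    (Ideal.span_singleton_prime hf.ne_zero).2 hf.prime
  have hded : IsDedekindDomain (P2 ⧸ Ideal.span {dh2 δ}) :=
    dedekind_of_smooth (dh2 δ) hf (smooth_dh2 hδ hsm)
  obtain ⟨π, hπ, hπ0⟩ : ∃ π : P2 →+* P2 ⧸ Ideal.span {dh2 δ}, Function.Surjective π ∧
      ∀ x, π x = 0 ↔ dh2 δ ∣ x := by
    refine ⟨Ideal.Quotient.mk _, Ideal.Quotient.mk_surjective, fun x => ?_⟩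
    rw [Ideal.Quotient.eq_zero_iff_mem, Ideal.mem_span_singleton]
  obtain ⟨𝔟, h𝔟⟩ := sq_ideal_of_even π hπ (dh2 δ) (dh2 h) hπ0 hfh (by
    intro P hP
    rw [eval_dh2'] at hP
    obtain ⟨α, β, σ, hα, hβ, hd⟩ := hev (Fin.cons 1 P) (by
      intro h
      have := congrFun h 0
      simp at this) hP
    refine ⟨dh2 α, dh2 β, dh2 σ, by rwa [eval_dh2'], by rwa [eval_dh2'], ?_⟩
    have := map_dvd dh2 hd
    rwa [map_sub, map_mul, map_mul, map_pow] at this)
  have hthg : π (dh2 t) ^ 2 = π (dh2 h) * π (dh2 g) := by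
    have h1 := map_dvd dh2 hth
    rw [map_sub, map_mul, map_pow] at h1
    have h2 := (hπ0 _).mpr h1
    rw [map_sub, map_mul, map_pow] at h2
    exact sub_eq_zero.mp h2
  obtain ⟨𝔠, h𝔠⟩ := sq_ideal_quot (fun h => hfh ((hπ0 _).mp h)) hthg h𝔟
  obtain ⟨b, hb1, hb2, hb3, hb4⟩ := half_of_sq π hπ (dh2 δ) (dh2 g) hπ0 hfg 𝔠 h𝔠 hfin
  obtain ⟨s, hs, hsb, hgs⟩ := exists_cubic6 hg hg0 b hb3 (by omega)
  have hne : rh δ ≠ 0 := fun h => h0 (rh_eq_zero h)
  have hrr : IsRelPrime (rh δ) (rh g) := rh_rel hδ h0 hinf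
  have hp : (s * s).IsHomogeneous (3 + 3) := hs.mul hs
  have hmem : dh2 (s * s) ∈ Ideal.span {dh2 δ, dh2 g} := by
    rw [map_mul]
    exact hb2 _ hsb _ hsb
  obtain ⟨N, hN⟩ := mem_of_dh2_mem hδ hg hp hmem
  obtain ⟨A, hA, e, he⟩ := hom_decomp hδ hg hp (by omega) (by omega)
    (mem_of_X_pow_mul hne hrr N hN)
  -- `s ^ 2 = g A + δ e`
  have he0 : e ≠ 0 := by
    rintro rfl
    apply hgs
    rw [← hsq.dvd_pow_iff_dvd (n := 2) (by norm_num)]
    exact ⟨A, by linear_combination he⟩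
  obtain ⟨c, hc0, hc⟩ : ∃ c : ℂ, c ≠ 0 ∧ e = C c := by
    have hge : (δ * e).IsHomogeneous 6 := by
      rw [← he]
      refine hp.sub ?_
      have := hg.mul hA
      exact this
    obtain ⟨a', b', ha, hb, hab⟩ := Helper16.hom_factor hge (mul_ne_zero hirr.ne_zero he0)
    have ha1 : a' = 6 := ha.inj_right hδ hirr.ne_zero
    have hb1 : b' = 0 := by omega
    subst hb1
    have h4 : e.totalDegree = 0 := by
      have := hb.totalDegree_le
      omega
    rw [totalDegree_eq_zero_iff_eq_C] at h4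
    refine ⟨coeff 0 e, ?_, h4⟩
    intro h5
    rw [h5, map_zero] at h4
    exact he0 h4
  obtain ⟨r, hr⟩ := IsAlgClosed.exists_pow_nat_eq (-c⁻¹) (show 0 < 2 by norm_num)
  refine ⟨C (-c⁻¹) * A, C r * s, ?_⟩
  have h5 : (C r : P3) ^ 2 = C (-c⁻¹) := by rw [← map_pow, hr]
  have h6 : (C (-c⁻¹) : P3) * C c = -1 := by
    rw [← map_mul, neg_mul, inv_mul_cancel₀ hc0, map_neg, map_one]
  rw [hc] at he
  rw [mul_pow, h5]
  linear_combination (C (-c⁻¹)) * he + δ * h6

/-- a contact conic in the class of an even twist splits the sextic -/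
theorem con_line (δ h t g : P3) {m : ℕ} (hδ : δ.IsHomogeneous 6)
    (hsm : ∀ z : Fin 3 → ℂ, z ≠ 0 → eval z δ = 0 → ∃ i, eval z (pderiv i δ) ≠ 0)
    (hh : h.IsHomogeneous m) (hδh : ¬ δ ∣ h) (hev : EvenOn δ h) (hg : g.IsHomogeneous 2)
    (hg0 : g ≠ 0) (hsq : Squarefree g) (hth : δ ∣ t ^ 2 - h * g) :
    ∃ A B : P3, δ = g * A - B ^ 2 := by
  classical
  have hirr : Irreducible δ := irreducible_of_smooth (by norm_num) hδ hsm
  have hδg : ¬ δ ∣ g := by
    rintro ⟨q, hq⟩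
    have hq0 : q ≠ 0 := by
      rintro rfl
      exact hg0 (by rw [hq, mul_zero])
    have h1 := hg.totalDegree hg0
    rw [hq, totalDegree_mul_of_isDomain hirr.ne_zero hq0, hδ.totalDegree hirr.ne_zero] at h1
    omega
  have hrel : IsRelPrime δ g := hirr.isRelPrime_iff_not_dvd.mpr hδg
  obtain ⟨l, hl, hav⟩ := TR.exists_lin_avoid hδ hg hrel hg0
  obtain ⟨φ, hφ⟩ := exists_lequiv hl
  let a : (Fin 3 → ℂ) →ₗ[ℂ] (Fin 3 → ℂ) := φ.symm.toLinearMap
  let b : (Fin 3 → ℂ) →ₗ[ℂ] (Fin 3 → ℂ) := φ.toLinearMap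
  have hab : ∀ z, a (b z) = z := φ.symm_apply_apply
  have hba : ∀ z, b (a z) = z := φ.apply_symm_apply
  have h1 : ∀ p, lsub b (lsub a p) = p := lsub_lsub hab
  have h2 : ∀ p, lsub a (lsub b p) = p := lsub_lsub φ.apply_symm_apply
  have ha0 : ∀ z, a z = 0 → z = 0 := by
    intro z hz
    rw [← hba z, hz, map_zero]
  obtain ⟨A, B, hAB⟩ := con_affine (lsub a δ) (lsub a h) (lsub a t) (lsub a g)
    (lsub_hom a hδ) (smooth_lsub hsm hab ha0) (lsub_hom a hh) (by
      intro hd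
      have := map_dvd (lsub b) hd
      rw [h1, h1] at this
      exact hδh this) (by
      intro z hz hzδ
      rw [eval_lsub] at hzδ
      obtain ⟨α, β, σ, hα, hβ, hd⟩ := hev (a z) (fun h => hz (ha0 z h)) hzδ
      refine ⟨lsub a α, lsub a β, lsub a σ, by rwa [eval_lsub], by rwa [eval_lsub], ?_⟩
      have := map_dvd (lsub a) hd
      rwa [map_sub, map_mul, map_mul, map_pow] at this) (lsub_hom a hg) (by
      intro h
      apply hg0
      rw [← h1 g, h, map_zero]) (by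
      intro x hx
      have h3 : lsub b x * lsub b x ∣ g := by
        have h4 := map_dvd (lsub b) hx
        rwa [map_mul, h1] at h4
      have h5 := (hsq _ h3).map (lsub a)
      rwa [h2] at h5) (by
      have := map_dvd (lsub a) hth
      rwa [map_sub, map_mul, map_pow] at this) (by
      intro z hz hz0 hzδ hzy
      rw [eval_lsub] at hzδ hzy
      apply hz
      apply ha0
      refine hav (a z) ?_ hzδ hzy
      rw [← hφ]
      change b (a z) 0 = 0
      rw [hba, hz0])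
  refine ⟨lsub b A, lsub b B, ?_⟩
  have := congrArg (lsub b) hAB
  rw [map_sub, map_mul, map_pow, h1, h1] at this
  exact this


end Pool.Agent.Helper82.OS
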