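import Pool.Agent.Helper82.OS.Rank
import Pool.Agent.Helper82.OS.Three

set_option autoImplicit false

/-!
Dixon's construction for a class twisted by two (project OS, piece X14).
-/

namespace Pool.Agent.Helper82.OS

open MvPolynomial Pool.Agent.Helper29.HP Pool.Agent.Helper16 Matrix

/-- two degree zero forms -/
theorem hom_dvd {δ p : P3} {n k : ℕ} (hδ : δ.IsHomogeneous n) (hδ0 : δ ≠ 0)
    (hp : p.IsHomogeneous (n + k)) (h : δ ∣ p) : ∃ q : P3, q.IsHomogeneous k ∧ p = δ * q := by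
  obtain ⟨q, hq⟩ := h
  by_cases hq0 : q = 0
  · refine ⟨0, isHomogeneous_zero _ _ _, ?_⟩
    rw [hq, hq0]
  · obtain ⟨a, b, ha, hb, hab⟩ := Helper16.hom_factor (p := δ) (q := q)
      (by rw [← hq]; exact hp) (mul_ne_zero hδ0 hq0)
    have h6 : a = n := ha.inj_right hδ hδ0
    obtain rfl : b = k := by omega
    exact ⟨q, hb, hq⟩

theorem core (δ H : P3) (m : ℕ) (hδ : δ.IsHomogeneous 6)
    (hsm : ∀ z : Fin 3 → ℂ, z ≠ 0 → eval z δ = 0 → ∃ i, eval z (pderiv i δ) ≠ 0)
    (hH : H.IsHomogeneous (2 * m + 4)) (hδH : ¬ δ ∣ H) (hev : EvenOn δ H) :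
    (∃ (s G G1 G2 : P3) (d : ℕ), G.IsHomogeneous d ∧ d < 6 ∧ G * G1 - G2 ^ 2 = δ ∧
      δ ∣ s ^ 2 - H * G) ∨
    (∃ (s G G1 G2 : P3) (d : ℕ), G.IsHomogeneous d ∧ d < 6 ∧ G ≠ 0 ∧
      G * G1 - G2 ^ 2 = δ * X 0 ^ 2 ∧ δ ∣ s ^ 2 - H * G) ∨
    ∃ (M : Matrix (Fin 3) (Fin 3) P3) (s : Fin 3 → P3), M.IsSymm ∧
      (∀ i j, (M i j).IsHomogeneous 2) ∧ M.det = δ ∧ (∀ i, (s i).IsHomogeneous (m + 4)) ∧
      ∀ i j, δ ∣ s i * s j - H * M.adjugate i j := by
  classical
  have hirr : Irreducible δ := irreducible_of_smooth (by norm_num) hδ hsm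
  have hδ0 := hirr.ne_zero
  obtain ⟨s, A, hs, hli, hA, hA4, hsA⟩ := exists_three δ H m hδ hsm hH hδH hev
  have hmin : ∀ i j k l, δ ∣ A i j * A k l - A i l * A k j := by
    intro i j k l
    have h1 : δ ∣ H ^ 2 * (A i j * A k l - A i l * A k j) := by
      have e : H ^ 2 * (A i j * A k l - A i l * A k j) =
          (s i * s l - H * A i l) * (s k * s j) +
          (H * A i l) * (s k * s j - H * A k j) -
          (s i * s j - H * A i j) * (s k * s l) -
          (H * A i j) * (s k * s l - H * A k l) := by ring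
      rw [e]
      exact dvd_sub (dvd_sub (dvd_add ((hsA i l).mul_right _) ((hsA k j).mul_left _))
        ((hsA i j).mul_right _)) ((hsA k l).mul_left _)
    rcases hirr.prime.dvd_or_dvd h1 with h | h
    · exact absurd (hirr.prime.dvd_of_dvd_pow h) hδH
    · exact h
  have hadj : ∀ i j, δ ∣ A.adjugate i j ∧ (A.adjugate i j).IsHomogeneous (6 + 2) := by
    intro i j
    have hm : ∀ a b c d, (A a b * A c d - A a d * A c b).IsHomogeneous (6 + 2) := by
      intro a b c d
      exact ((hA4 a b).mul (hA4 c d)).sub ((hA4 a d).mul (hA4 c b))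
    rw [Matrix.adjugate_fin_three]
    fin_cases i <;> fin_cases j
    · change δ ∣ A 1 1 * A 2 2 - A 1 2 * A 2 1 ∧ (A 1 1 * A 2 2 - A 1 2 * A 2 1).IsHomogeneous (6 + 2)
      exact ⟨hmin _ _ _ _, hm _ _ _ _⟩
    · change δ ∣ -(A 0 1 * A 2 2) + A 0 2 * A 2 1 ∧
        (-(A 0 1 * A 2 2) + A 0 2 * A 2 1).IsHomogeneous (6 + 2)
      have e : -(A 0 1 * A 2 2) + A 0 2 * A 2 1 = A 0 2 * A 2 1 - A 0 1 * A 2 2 := by ring
      rw [e]
      exact ⟨hmin _ _ _ _, hm _ _ _ _⟩
    · change δ ∣ A 0 1 * A 1 2 - A 0 2 * A 1 1 ∧ (A 0 1 * A 1 2 - A 0 2 * A 1 1).IsHomogeneous (6 + 2)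
      exact ⟨hmin _ _ _ _, hm _ _ _ _⟩
    · change δ ∣ -(A 1 0 * A 2 2) + A 1 2 * A 2 0 ∧
        (-(A 1 0 * A 2 2) + A 1 2 * A 2 0).IsHomogeneous (6 + 2)
      have e : -(A 1 0 * A 2 2) + A 1 2 * A 2 0 = A 1 2 * A 2 0 - A 1 0 * A 2 2 := by ring
      rw [e]
      exact ⟨hmin _ _ _ _, hm _ _ _ _⟩
    · change δ ∣ A 0 0 * A 2 2 - A 0 2 * A 2 0 ∧ (A 0 0 * A 2 2 - A 0 2 * A 2 0).IsHomogeneous (6 + 2)
      exact ⟨hmin _ _ _ _, hm _ _ _ _⟩
    · change δ ∣ -(A 0 0 * A 1 2) + A 0 2 * A 1 0 ∧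
        (-(A 0 0 * A 1 2) + A 0 2 * A 1 0).IsHomogeneous (6 + 2)
      have e : -(A 0 0 * A 1 2) + A 0 2 * A 1 0 = A 0 2 * A 1 0 - A 0 0 * A 1 2 := by ring
      rw [e]
      exact ⟨hmin _ _ _ _, hm _ _ _ _⟩
    · change δ ∣ A 1 0 * A 2 1 - A 1 1 * A 2 0 ∧ (A 1 0 * A 2 1 - A 1 1 * A 2 0).IsHomogeneous (6 + 2)
      exact ⟨hmin _ _ _ _, hm _ _ _ _⟩
    · change δ ∣ -(A 0 0 * A 2 1) + A 0 1 * A 2 0 ∧
        (-(A 0 0 * A 2 1) + A 0 1 * A 2 0).IsHomogeneous (6 + 2)
      have e : -(A 0 0 * A 2 1) + A 0 1 * A 2 0 = A 0 1 * A 2 0 - A 0 0 * A 2 1 := by ring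
      rw [e]
      exact ⟨hmin _ _ _ _, hm _ _ _ _⟩
    · change δ ∣ A 0 0 * A 1 1 - A 0 1 * A 1 0 ∧ (A 0 0 * A 1 1 - A 0 1 * A 1 0).IsHomogeneous (6 + 2)
      exact ⟨hmin _ _ _ _, hm _ _ _ _⟩
  choose M0 hM2 hM0 using fun i j => hom_dvd hδ hδ0 (hadj i j).2 (hadj i j).1
  obtain ⟨M, hMd⟩ : ∃ M : Matrix (Fin 3) (Fin 3) P3, M = Matrix.of M0 := ⟨_, rfl⟩
  have hM2' : ∀ i j, (M i j).IsHomogeneous 2 := by
    intro i j
    rw [hMd]
    exact hM2 i j
  have hAM : A.adjugate = δ • M := by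
    ext1 i j
    rw [hMd]
    exact hM0 i j
  have hadjs : A.adjugate.IsSymm := by
    rw [Matrix.IsSymm, Matrix.adjugate_transpose, hA.eq]
  have hMs : M.IsSymm := by
    apply Matrix.IsSymm.ext
    intro i j
    apply mul_left_cancel₀ hδ0
    have h1 : ∀ i j, A.adjugate i j = δ * M i j := by
      intro i j
      rw [hAM]
      rfl
    rw [← h1, ← h1]
    exact hadjs.apply i j
  have hA3 : δ ^ 2 • M.adjugate = A.det • A := by
    have h1 := Matrix.adjugate_adjugate A (by simp)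
    rw [Fintype.card_fin, hAM, Matrix.adjugate_smul, Fintype.card_fin] at h1
    have h2 : A.det ^ (3 - 2) = A.det := pow_one _
    rw [h2] at h1
    exact h1
  have hd3 : δ ^ 3 * M.det = A.det ^ 2 := by
    have h1 := Matrix.det_adjugate A
    rw [Fintype.card_fin, hAM, Matrix.det_smul, Fintype.card_fin] at h1
    exact h1
  by_cases hdA : A.det = 0
  · -- degenerate
    have hMadj : M.adjugate = 0 := by
      rw [hdA, zero_smul] at hA3
      exact (smul_eq_zero.mp hA3).resolve_left (pow_ne_zero 2 hδ0)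
    obtain ⟨c, hc0, hc⟩ := rank_one M hMs hM2' hMadj
    obtain ⟨p, q, hpq⟩ := exists_cross c hc0
    obtain ⟨P, hP⟩ : ∃ P : Fin 3 → P3, P = fun i => C (p i) := ⟨_, rfl⟩
    obtain ⟨Q, hQ⟩ : ∃ Q : Fin 3 → P3, Q = fun i => C (q i) := ⟨_, rfl⟩
    have hPQ : crossProduct P Q = fun i => C (c i) := by
      rw [← hpq, hP, hQ, cross_apply, cross_apply]
      funext i
      fin_cases i <;> simp
    have hgram := gram A hA P Q
    rw [hPQ, hAM, Matrix.smul_mulVec, dotProduct_smul, smul_eq_mul] at hgram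
    have hhom : ∀ u v : Fin 3 → ℂ,
        ((fun i => (C (u i) : P3)) ⬝ᵥ A.mulVec (fun i => C (v i))).IsHomogeneous 4 := by
      intro u v
      simp only [dotProduct, mulVec]
      apply IsHomogeneous.sum
      intro i _
      have h1 : (∑ j, A i j * C (v j)).IsHomogeneous 4 := by
        apply IsHomogeneous.sum
        intro j _
        rw [mul_comm]
        exact (hA4 i j).C_mul _
      exact h1.C_mul _
    have hsh : ∀ u : Fin 3 → ℂ, (∑ i, C (u i) * s i).IsHomogeneous (m + 4) := by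
      intro u
      apply IsHomogeneous.sum
      intro i _
      exact (hs i).C_mul _
    have hss : ∀ u v : Fin 3 → ℂ, δ ∣ (∑ i, C (u i) * s i) * (∑ j, C (v j) * s j) -
        H * ((fun i => (C (u i) : P3)) ⬝ᵥ A.mulVec (fun i => C (v i))) := by
      intro u v
      have e : (∑ i, C (u i) * s i) * (∑ j, C (v j) * s j) -
        H * ((fun i => (C (u i) : P3)) ⬝ᵥ A.mulVec (fun i => C (v i))) =
        ∑ i, ∑ j, C (u i) * C (v j) * (s i * s j - H * A i j) := by
        simp only [dotProduct, mulVec, Fin.sum_univ_three]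
        ring
      rw [e]
      exact Finset.dvd_sum fun i _ => Finset.dvd_sum fun j _ => (hsA i j).mul_left _
    have hind : ∀ a b : ℂ, δ ∣ C a * (∑ i, C (p i) * s i) + C b * (∑ i, C (q i) * s i) →
        a = 0 ∧ b = 0 := by
      intro a b hab
      have h1 : C a * (∑ i, C (p i) * s i) + C b * (∑ i, C (q i) * s i) =
          ∑ i, C (a * p i + b * q i) * s i := by
        simp only [Fin.sum_univ_three, C_add, C_mul]
        ring
      rw [h1] at hab
      have h2 := hli (fun i => a * p i + b * q i) hab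
      have h3 : a • p + b • q = 0 := h2
      constructor
      · have h4 : a • crossProduct p q = 0 := by
          have h5 : crossProduct (a • p + b • q) q = 0 := by rw [h3, map_zero]; rfl
          rw [map_add, map_smul, map_smul, LinearMap.add_apply, LinearMap.smul_apply,
            LinearMap.smul_apply, cross_self, smul_zero, add_zero] at h5
          exact h5
        rw [hpq] at h4
        exact (smul_eq_zero.mp h4).resolve_right hc0
      · have h4 : b • crossProduct p q = 0 := by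
          have h5 : crossProduct p (a • p + b • q) = 0 := by rw [h3, map_zero]
          rw [map_add, map_smul, map_smul, cross_self, smul_zero, zero_add] at h5
          exact h5
        rw [hpq] at h4
        exact (smul_eq_zero.mp h4).resolve_right hc0
    have h11 : δ ∣ (∑ i, C (p i) * s i) ^ 2 - H * (P ⬝ᵥ A.mulVec P) := by
      rw [hP, pow_two]
      exact hss p p
    have h12 : δ ∣ (∑ i, C (p i) * s i) * (∑ i, C (q i) * s i) - H * (P ⬝ᵥ A.mulVec Q) := by
      rw [hP, hQ]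
      exact hss p q
    have h22 : δ ∣ (∑ i, C (q i) * s i) ^ 2 - H * (Q ⬝ᵥ A.mulVec Q) := by
      rw [hQ, pow_two]
      exact hss q q
    have hGp : (P ⬝ᵥ A.mulVec P).IsHomogeneous 4 := by rw [hP]; exact hhom p p
    have hGpq : (P ⬝ᵥ A.mulVec Q).IsHomogeneous 4 := by rw [hP, hQ]; exact hhom p q
    rcases hc with hc | hc
    · left
      rw [hc, mul_zero] at hgram
      exact deg_pair δ H hδ hsm hH hδH hev (hsh p) (hsh q) hGp hGpq h11 h12 h22
        (sub_eq_zero.mp hgram) hind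
    · right; left
      rw [hc] at hgram
      refine ⟨_, P ⬝ᵥ A.mulVec P, Q ⬝ᵥ A.mulVec Q, P ⬝ᵥ A.mulVec Q, 4, hGp, by norm_num, ?_, hgram,
        h11⟩
      intro h0
      rw [h0, mul_zero, sub_zero] at h11
      have h1 := hirr.prime.dvd_of_dvd_pow h11
      have h2 := (hind 1 0 (by rw [C_1, C_0, one_mul, zero_mul, add_zero]; exact h1)).1
      exact one_ne_zero h2
  · -- nondegenerate
    right; right
    have h1 : δ ∣ A.det := by
      apply hirr.prime.dvd_of_dvd_pow (n := 2)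
      rw [← hd3]
      exact (dvd_pow_self δ (by norm_num)).mul_right _
    obtain ⟨e, he⟩ := h1
    have h2 : δ ∣ e := by
      apply hirr.prime.dvd_of_dvd_pow (n := 2)
      refine ⟨M.det, ?_⟩
      apply mul_left_cancel₀ (pow_ne_zero 2 hδ0)
      rw [he] at hd3
      linear_combination -hd3
    obtain ⟨f, hf⟩ := h2
    have hdet : A.det = δ ^ 2 * f := by rw [he, hf]; ring
    have hf0 : f ≠ 0 := by
      rintro rfl
      exact hdA (by rw [hdet, mul_zero])
    have hdh : A.det.IsHomogeneous 12 := by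
      rw [Matrix.det_fin_three]
      have h3 : ∀ a b c d e f, (A a b * A c d * A e f).IsHomogeneous 12 := by
        intro a b c d e f
        exact ((hA4 a b).mul (hA4 c d)).mul (hA4 e f)
      exact (((((h3 _ _ _ _ _ _).sub (h3 _ _ _ _ _ _)).sub (h3 _ _ _ _ _ _)).add
        (h3 _ _ _ _ _ _)).add (h3 _ _ _ _ _ _)).sub (h3 _ _ _ _ _ _)
    obtain ⟨κ, hκ⟩ : ∃ κ : ℂ, f = C κ := by
      have h4 : (δ ^ 2).IsHomogeneous 12 := by
        have := hδ.pow 2
        exact this
      obtain ⟨a, b, ha, hb, hab⟩ := Helper16.hom_factor (p := δ ^ 2) (q := f)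
        (by rw [← hdet]; exact hdh) (by rw [← hdet]; exact hdA)
      have h6 : a = 12 := ha.inj_right h4 (pow_ne_zero 2 hδ0)
      obtain rfl : b = 0 := by omega
      exact hom_zero hb
    have hκ0 : κ ≠ 0 := by
      rintro rfl
      exact hf0 (by rw [hκ, map_zero])
    rw [hκ] at hdet
    have hMdet : M.det = C κ ^ 2 * δ := by
      apply mul_left_cancel₀ (pow_ne_zero 3 hδ0)
      rw [hd3, hdet]
      ring
    have hMA : M.adjugate = (C κ : P3) • A := by
      rw [hdet] at hA3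
      ext1 i j
      have h5 := congrFun (congrFun hA3 i) j
      rw [Matrix.smul_apply, Matrix.smul_apply, smul_eq_mul, smul_eq_mul] at h5
      rw [Matrix.smul_apply, smul_eq_mul]
      apply mul_left_cancel₀ (pow_ne_zero 2 hδ0)
      rw [h5]
      ring
    obtain ⟨lam, hlam⟩ := IsAlgClosed.exists_pow_nat_eq ((κ ^ 2)⁻¹) (n := 3) (by norm_num)
    obtain ⟨r, hr⟩ := IsAlgClosed.exists_pow_nat_eq (lam ^ 2 * κ) (n := 2) (by norm_num)
    have h7 : lam ^ 3 * κ ^ 2 = 1 := by
      rw [hlam]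
      exact inv_mul_cancel₀ (pow_ne_zero 2 hκ0)
    refine ⟨(C lam : P3) • M, fun i => C r * s i, ?_, ?_, ?_, fun i => (hs i).C_mul r, ?_⟩
    · rw [Matrix.IsSymm, Matrix.transpose_smul, hMs.eq]
    · intro i j
      rw [Matrix.smul_apply, smul_eq_mul]
      exact (hM2' i j).C_mul lam
    · rw [Matrix.det_smul, Fintype.card_fin, hMdet]
      have h8 : (C lam : P3) ^ 3 * C κ ^ 2 = 1 := by
        rw [← C_pow, ← C_pow, ← C_mul, h7, C_1]
      linear_combination δ * h8
    · intro i j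
      rw [Matrix.adjugate_smul, Fintype.card_fin, hMA, Matrix.smul_apply, Matrix.smul_apply,
        smul_eq_mul, smul_eq_mul]
      have h8 : (C r : P3) ^ 2 = C lam ^ (3 - 1) * C κ := by
        rw [← C_pow, hr, C_mul, C_pow]
      have h9 : C r * s i * (C r * s j) - H * ((C lam : P3) ^ (3 - 1) * (C κ * A i j)) =
          C r ^ 2 * (s i * s j - H * A i j) := by
        linear_combination (H * A i j) * h8
      rw [h9]
      exact (hsA i j).mul_left _

end Pool.Agent.Helper82.OS
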