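import Mathlib
import Pool.Agent.Helper82.HP.TwoSec
import Pool.Agent.Helper82.OS.Conic
import Pool.Agent.Helper29.HP.Main

set_option autoImplicit false

/-!
Degenerate quartic matrices (project OS, piece X14).
-/

namespace Pool.Agent.Helper82.OS

open MvPolynomial Pool.Agent.Helper29.HP Pool.Agent.Helper16 Matrix
open Pool.Agent.Helper82.HP

theorem psi_X0 : psi (X 0) = 1 := by
  simp [psi]

/-- two sections, with a square of the line at infinity allowed in the determinant -/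
theorem iso_of_two_sections0 {N : Matrix (Fin 4) (Fin 4) P3} (hN : N.IsSymm)
    (hdet : N.det.IsHomogeneous 6) (hirr : Irreducible N.det)
    (j : Fin 4) {e : ℕ} (hjh : (N.adjugate j j).IsHomogeneous e) (hj : ¬ N.det ∣ N.adjugate j j)
    {μ : P3} {m : ℕ} (hμ : μ.IsHomogeneous m) (hμδ : ¬ N.det ∣ μ)
    (hsp : ∀ π, Irreducible π → π ∣ μ → ∃ g h, ¬ π ∣ h ∧ π ∣ g ^ 2 - N.det * h ^ 2)
    {s G G1 G2 : P3} {d : ℕ} (hG : G.IsHomogeneous d) (hd : d < 6) (hG0 : G ≠ 0)
    (hdG : G * G1 - G2 ^ 2 = N.det * X 0 ^ 2) (hs : N.det ∣ s ^ 2 - μ * N.adjugate j j * G) :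
    ∃ y : Fin 4 → KK, y ≠ 0 ∧ y ⬝ᵥ (N.map psiK).mulVec y = 0 := by
  have hμ0 : μ ≠ 0 := by
    rintro rfl
    exact hμδ (dvd_zero _)
  have hpr : Prime (psi N.det) := psi_prime_of_deg hirr hdet (by norm_num)
  have hnd : ∀ {q : P3} {d : ℕ}, q.IsHomogeneous d → ¬ N.det ∣ q → ¬ psi N.det ∣ psi q :=
    fun hq h h' => h (dvd_of_psi_dvd hirr hdet hq hpr h')
  have hGd : ¬ N.det ∣ G := by
    intro h
    obtain ⟨q, hq⟩ := h
    have h1 := hG.totalDegree hG0
    have hq0 : q ≠ 0 := by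
      rintro rfl
      exact hG0 (by rw [hq, mul_zero])
    rw [hq, totalDegree_mul_of_isDomain hirr.ne_zero hq0, hdet.totalDegree hirr.ne_zero] at h1
    omega
  obtain ⟨y, hy, hy0⟩ := iso_of_bin (N.map psi)
    (by rw [Matrix.IsSymm, ← Matrix.transpose_map, hN.eq]) (psi N.det) (psi μ) (psi s) (psi G)
    (psi G2) (psi G1) hpr (by
      have h1 := AlgHom.map_det psi N
      rw [AlgHom.mapMatrix_apply] at h1
      exact h1.symm) (psi_ne_zero hμ hμ0) (hnd hμ hμδ) (psi_sq hμ hμ0 hdet hsp) j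
    (by
      have h1 : (N.map psi).adjugate j j = psi (N.adjugate j j) := ph_adjugate N j j
      rw [h1]; exact hnd hjh hj)
    (by
      have h1 := congrArg psi hdG
      rw [map_mul, map_pow, psi_X0, one_pow, mul_one] at h1
      rw [← h1, ← map_mul, ← map_mul, ← map_sub]
      congr 1
      ring)
    (hnd hG hGd)
    (by
      have h1 : (N.map psi).adjugate j j = psi (N.adjugate j j) := ph_adjugate N j j
      have h2 := map_dvd psi hs
      rw [map_sub, map_pow, map_mul, map_mul] at h2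
      rw [h1]; exact h2)
  exact ⟨y, hy, by rw [← map_map_psi]; exact hy0⟩

/-- a form of degree zero is a constant -/
theorem hom_zero {p : P3} (h : p.IsHomogeneous 0) : ∃ c : ℂ, p = C c := by
  rw [← totalDegree_zero_iff_isHomogeneous, totalDegree_eq_zero_iff_eq_C] at h
  exact ⟨_, h⟩

/-- a nonzero quadratic form is squarefree or a square -/
theorem sqfree_or_sq {u : P3} (hu : u.IsHomogeneous 2) (hu0 : u ≠ 0) :
    Squarefree u ∨ ∃ l : P3, l.IsHomogeneous 1 ∧ u = l ^ 2 := by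
  by_contra hcon
  push Not at hcon
  obtain ⟨h1, h2⟩ := hcon
  obtain ⟨g, p, hgp, hsq⟩ := Pool.Agent.Helper64.HA.exists_sqfree u hu0
  have hgp0 : g * p ^ 2 ≠ 0 := by rw [← hgp]; exact hu0
  obtain ⟨a, b, ha, hb, hab⟩ := Helper16.hom_factor (p := g) (q := p ^ 2)
    (by rw [← hgp]; exact hu) hgp0
  have hp0 : p * p ≠ 0 := by
    rw [← pow_two]; exact right_ne_zero_of_mul hgp0
  obtain ⟨b1, b2, hb1, hb2, hb12⟩ := Helper16.hom_factor (p := p) (q := p)
    (by rw [← pow_two]; exact hb) hp0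
  have hb' : b1 = b2 := hb1.inj_right hb2 (left_ne_zero_of_mul hp0)
  subst hb'
  rcases Nat.eq_zero_or_pos b1 with rfl | hb0
  · obtain ⟨c, hc⟩ := hom_zero hb1
    apply h1
    have hc0 : c ≠ 0 := by
      rintro rfl
      apply left_ne_zero_of_mul hp0
      rw [hc, map_zero]
    have hpu : IsUnit p := by
      rw [hc]
      exact (isUnit_iff_ne_zero.mpr hc0).map C
    have hass : Associated g (g * p ^ 2) := by
      obtain ⟨v, hv⟩ := hpu.pow 2
      exact ⟨v, by rw [hv]⟩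
    rw [hgp]
    exact (hass.squarefree_iff).mp hsq
  · obtain rfl : b1 = 1 := by omega
    obtain rfl : a = 0 := by omega
    obtain ⟨c, hc⟩ := hom_zero ha
    obtain ⟨r, hr⟩ := IsAlgClosed.exists_pow_nat_eq c (n := 2) (by norm_num)
    exact h2 (C r * p) (hb1.C_mul r) (by rw [hgp, mul_pow, ← C_pow, hr, hc])

/-- the constant case -/
theorem deg_const (δ H : P3) {σ : P3} {κ : ℂ} (hκ : κ ≠ 0) (hσ : δ ∣ σ ^ 2 - H * C κ) :
    ∃ (s G G1 G2 : P3) (d : ℕ), G.IsHomogeneous d ∧ d < 6 ∧ G * G1 - G2 ^ 2 = δ ∧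
      δ ∣ s ^ 2 - H * G := by
  refine ⟨σ, C κ, C κ⁻¹ * δ, 0, 0, isHomogeneous_C _ _, by norm_num, ?_, hσ⟩
  have : (C κ : P3) * C κ⁻¹ = 1 := by rw [← C_mul, mul_inv_cancel₀ hκ, C_1]
  linear_combination δ * this

/-- the quadratic case -/
theorem deg_quad (δ H : P3) {m : ℕ} (hδ : δ.IsHomogeneous 6)
    (hsm : ∀ z : Fin 3 → ℂ, z ≠ 0 → eval z δ = 0 → ∃ i, eval z (pderiv i δ) ≠ 0)
    (hH : H.IsHomogeneous m) (hδH : ¬ δ ∣ H) (hev : EvenOn δ H) {σ u : P3} {n : ℕ}
    (hσ : σ.IsHomogeneous n) (hn : 1 ≤ n) (hu : u.IsHomogeneous 2) (hu0 : u ≠ 0)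
    (hd : δ ∣ σ ^ 2 - H * u) :
    ∃ (s G G1 G2 : P3) (d : ℕ), G.IsHomogeneous d ∧ d < 6 ∧ G * G1 - G2 ^ 2 = δ ∧
      δ ∣ s ^ 2 - H * G := by
  have hirr : Irreducible δ := irreducible_of_smooth (by norm_num) hδ hsm
  rcases sqfree_or_sq hu hu0 with h | ⟨l, hl, rfl⟩
  · obtain ⟨A, B, hAB⟩ := con_line δ H σ u hδ hsm hH hδH hev hu hu0 h hd
    exact ⟨σ, u, A, B, 2, hu, by norm_num, hAB.symm, hd⟩
  · have hl0 : l ≠ 0 := by
      rintro rfl
      exact hu0 (by ring)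
    have hδl : ¬ δ ∣ l := fun h => hl0 (eq_zero_of_dvd_lt hδ hirr.ne_zero hl (by norm_num) h)
    obtain ⟨q, hq, hqd⟩ := Pool.Agent.Helper5.HP.norm_dvd δ hδ hsm (x := σ) (y := l) (w := H)
      hσ hl hn hδl (by
        have : σ ^ 2 - l ^ 2 * H = σ ^ 2 - H * l ^ 2 := by ring
        rw [this]; exact hd)
    refine deg_const δ H (σ := q) (κ := 1) one_ne_zero ?_
    rw [C_1, mul_one]
    have h1 : δ ∣ l ^ 2 * (q ^ 2 - H) := by
      obtain ⟨a, ha⟩ := hd
      obtain ⟨b, hb⟩ := hqd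
      refine ⟨a - b * (σ + l * q), ?_⟩
      linear_combination ha - (σ + l * q) * hb
    rcases hirr.prime.dvd_or_dvd h1 with h | h
    · exact absurd (hirr.prime.dvd_of_dvd_pow h) hδl
    · exact h

/-- a degenerate pair of sections -/
theorem deg_pair (δ H : P3) {m : ℕ} (hδ : δ.IsHomogeneous 6)
    (hsm : ∀ z : Fin 3 → ℂ, z ≠ 0 → eval z δ = 0 → ∃ i, eval z (pderiv i δ) ≠ 0)
    (hH : H.IsHomogeneous (2 * m + 4)) (hδH : ¬ δ ∣ H) (hev : EvenOn δ H) {s t G G1 G2 : P3}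
    (hs : s.IsHomogeneous (m + 4)) (ht : t.IsHomogeneous (m + 4))
    (hG : G.IsHomogeneous 4) (hG2 : G2.IsHomogeneous 4)
    (h11 : δ ∣ s ^ 2 - H * G) (h12 : δ ∣ s * t - H * G2) (h22 : δ ∣ t ^ 2 - H * G1)
    (h0 : G * G1 = G2 ^ 2) (hind : ∀ a b : ℂ, δ ∣ C a * s + C b * t → a = 0 ∧ b = 0) :
    ∃ (s G G1 G2 : P3) (d : ℕ), G.IsHomogeneous d ∧ d < 6 ∧ G * G1 - G2 ^ 2 = δ ∧
      δ ∣ s ^ 2 - H * G := by
  have hirr : Irreducible δ := irreducible_of_smooth (by norm_num) hδ hsm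
  have hδs : ¬ δ ∣ s := by
    intro h
    have := (hind 1 0 (by rw [C_1, C_0, one_mul, zero_mul, add_zero]; exact h)).1
    exact one_ne_zero this
  have hG0 : G ≠ 0 := by
    rintro rfl
    rw [mul_zero, sub_zero] at h11
    exact hδs (hirr.prime.dvd_of_dvd_pow h11)
  obtain ⟨a, b, c, hab, hca, hcb⟩ := UniqueFactorizationMonoid.exists_reduced_factors G hG0 G2
  have hc0 : c ≠ 0 := by
    rintro rfl
    exact hG0 (by rw [← hca, zero_mul])
  have ha0 : a ≠ 0 := by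
    rintro rfl
    exact hG0 (by rw [← hca, mul_zero])
  have h1 : a * G1 = c * b ^ 2 := by
    apply mul_left_cancel₀ hc0
    rw [← hca, ← hcb] at h0
    linear_combination h0
  have h2 : a ∣ c := by
    have h3 : a ∣ c * b ^ 2 := ⟨G1, h1.symm⟩
    exact (hab.pow_right).dvd_of_dvd_mul_right h3
  obtain ⟨u, hu⟩ := h2
  have hu0 : u ≠ 0 := by
    rintro rfl
    exact hc0 (by rw [hu, mul_zero])
  have hGa : G = u * (a * a) := by rw [← hca, hu]; ring
  have hG2a : G2 = u * a * b := by rw [← hcb, hu]; ring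
  obtain ⟨e1, e2, he1, he2, he12⟩ := Helper16.hom_factor (p := u) (q := a * a)
    (by rw [← hGa]; exact hG) (by rw [← hGa]; exact hG0)
  obtain ⟨f1, f2, hf1, hf2, hf12⟩ := Helper16.hom_factor (p := a) (q := a) he2
    (mul_ne_zero ha0 ha0)
  have hff : f1 = f2 := hf1.inj_right hf2 ha0
  subst hff
  -- `a t = b s` modulo `δ`
  have hats : δ ∣ a * t - b * s := by
    have h3 : δ ∣ s * (a * t - b * s) := by
      obtain ⟨x, hx⟩ := h11
      obtain ⟨y, hy⟩ := h12
      refine ⟨a * y - b * x, ?_⟩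
      rw [hGa] at hx
      rw [hG2a] at hy
      linear_combination a * hy - b * hx
    exact (hirr.prime.dvd_or_dvd h3).resolve_left hδs
  rcases Nat.eq_zero_or_pos f1 with rfl | hf0
  · -- `a` constant
    exfalso
    obtain ⟨α, hα⟩ := hom_zero hf1
    obtain rfl : e2 = 0 := by omega
    obtain rfl : e1 = 4 := by omega
    have hb : ∃ β : ℂ, b = C β := by
      by_cases hb0 : b = 0
      · exact ⟨0, by rw [hb0, map_zero]⟩
      · obtain ⟨g1, g2, hg1, hg2, hg12⟩ := Helper16.hom_factor (p := u * a) (q := b)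
          (by rw [← hG2a]; exact hG2) (mul_ne_zero (mul_ne_zero hu0 ha0) hb0)
        have h3 : (u * a).IsHomogeneous (4 + 0) := he1.mul hf1
        have h4 : g1 = 4 + 0 := hg1.inj_right h3 (mul_ne_zero hu0 ha0)
        obtain rfl : g2 = 0 := by omega
        exact hom_zero hg2
    obtain ⟨β, hβ⟩ := hb
    have h3 := (hind (-β) α (by
      rw [hα, hβ] at hats
      rw [C_neg]
      have : -C β * s + C α * t = C α * t - C β * s := by ring
      rw [this]
      exact hats)).2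
    apply ha0
    rw [hα, h3, map_zero]
  · have hf2 : f1 ≤ 2 := by omega
    have hδa : ¬ δ ∣ a := fun h =>
      ha0 (eq_zero_of_dvd_lt hδ hirr.ne_zero hf1 (by omega) h)
    obtain ⟨σ, hσ, hσd⟩ := Pool.Agent.Helper5.HP.norm_dvd δ hδ hsm (x := s) (y := a) (w := H * u)
      hs hf1 (by omega) hδa (by
        have : s ^ 2 - a ^ 2 * (H * u) = s ^ 2 - H * G := by rw [hGa]; ring
        rw [this]; exact h11)
    have hσu : δ ∣ σ ^ 2 - H * u := by
      have h3 : δ ∣ a ^ 2 * (σ ^ 2 - H * u) := by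
        obtain ⟨x, hx⟩ := h11
        obtain ⟨y, hy⟩ := hσd
        refine ⟨x - y * (s + a * σ), ?_⟩
        rw [hGa] at hx
        linear_combination hx - (s + a * σ) * hy
      rcases hirr.prime.dvd_or_dvd h3 with h | h
      · exact absurd (hirr.prime.dvd_of_dvd_pow h) hδa
      · exact h
    have hcase : f1 = 1 ∨ f1 = 2 := by omega
    rcases hcase with rfl | rfl
    · obtain rfl : e1 = 2 := by omega
      exact deg_quad δ H hδ hsm hH hδH hev hσ (by omega) he1 hu0 hσu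
    · obtain rfl : e1 = 0 := by omega
      obtain ⟨κ, hκ⟩ := hom_zero he1
      have hκ0 : κ ≠ 0 := by
        rintro rfl
        exact hu0 (by rw [hκ, map_zero])
      rw [hκ] at hσu
      exact deg_const δ H hκ0 hσu

end Pool.Agent.Helper82.OS
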