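import Mathlib
import Pool.Agent.Helper82.OS.Deg
import Pool.Agent.Helper89.VE.Defs
import Pool.Agent.Helper5.HP.TwoEx

set_option autoImplicit false

/-!
Symmetric `3 × 3` matrices of quadratic forms of rank one (project OS, piece X14).
-/

namespace Pool.Agent.Helper82.OS

open MvPolynomial Pool.Agent.Helper29.HP Pool.Agent.Helper16 Matrix

/-- the Gram determinant -/
theorem gram {R : Type*} [CommRing R] (A : Matrix (Fin 3) (Fin 3) R) (hA : A.IsSymm)
    (p q : Fin 3 → R) :
    (p ⬝ᵥ A.mulVec p) * (q ⬝ᵥ A.mulVec q) - (p ⬝ᵥ A.mulVec q) ^ 2 =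
      (crossProduct p q) ⬝ᵥ A.adjugate.mulVec (crossProduct p q) := by
  have h1 : A 1 0 = A 0 1 := hA.apply 0 1
  have h2 : A 2 0 = A 0 2 := hA.apply 0 2
  have h3 : A 2 1 = A 1 2 := hA.apply 1 2
  rw [Matrix.adjugate_fin_three, cross_apply]
  simp only [dotProduct, mulVec, Fin.sum_univ_three, Matrix.of_apply, Matrix.cons_val', Matrix.cons_val_zero,
    Matrix.cons_val_one, Matrix.cons_val]
  rw [h1, h2, h3]
  ring

/-- every vector is a cross product -/
theorem exists_cross (c : Fin 3 → ℂ) (hc : c ≠ 0) : ∃ p q : Fin 3 → ℂ, crossProduct p q = c := by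
  have h : c 0 ≠ 0 ∨ c 1 ≠ 0 ∨ c 2 ≠ 0 := by
    by_contra hcon
    push Not at hcon
    apply hc
    funext i
    fin_cases i
    · exact hcon.1
    · exact hcon.2.1
    · exact hcon.2.2
  rcases h with h | h | h
  · refine ⟨![-(c 1 / c 0), 1, 0], ![-c 2, 0, c 0], ?_⟩
    rw [cross_apply]
    funext i
    fin_cases i <;> simp
    · field_simp
  · refine ⟨![0, -(c 2 / c 1), 1], ![c 1, -c 0, 0], ?_⟩
    rw [cross_apply]
    funext i
    fin_cases i <;> simp
    · field_simp
  · refine ⟨![1, 0, -(c 0 / c 2)], ![0, c 2, -c 1], ?_⟩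
    rw [cross_apply]
    funext i
    fin_cases i <;> simp
    · field_simp

/-- a homogeneous multiple of a form of the same degree -/
theorem eq_C_mul {p q : P3} {n : ℕ} (hp : p.IsHomogeneous n) (hp0 : p ≠ 0)
    (hq : q.IsHomogeneous n) (h : p ∣ q) : ∃ c : ℂ, q = C c * p :=
  eq_C_mul_of_dvd hp hp0 hq h

/-- quadrics of rank one -/
theorem rank_one (M : Matrix (Fin 3) (Fin 3) P3) (hM : M.IsSymm)
    (h2 : ∀ i j, (M i j).IsHomogeneous 2) (hadj : M.adjugate = 0) :
    ∃ c : Fin 3 → ℂ, c ≠ 0 ∧ ((fun i => (C (c i) : P3)) ⬝ᵥ M.mulVec (fun i => C (c i)) = 0 ∨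
      (fun i => (C (c i) : P3)) ⬝ᵥ M.mulVec (fun i => C (c i)) = X 0 ^ 2) := by
  have s1 : M 1 0 = M 0 1 := hM.apply 0 1
  have s2 : M 2 0 = M 0 2 := hM.apply 0 2
  have s3 : M 2 1 = M 1 2 := hM.apply 1 2
  have m1 : M 0 0 * M 1 1 = M 0 1 ^ 2 := by
    have := congrFun (congrFun hadj 2) 2
    rw [Matrix.adjugate_fin_three] at this
    simp at this
    rw [s1] at this
    linear_combination this
  have m2 : M 0 0 * M 2 2 = M 0 2 ^ 2 := by
    have := congrFun (congrFun hadj 1) 1
    rw [Matrix.adjugate_fin_three] at this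
    simp at this
    rw [s2] at this
    linear_combination this
  have m3 : M 0 0 * M 1 2 = M 0 1 * M 0 2 := by
    have := congrFun (congrFun hadj 1) 2
    rw [Matrix.adjugate_fin_three] at this
    simp at this
    rw [s1] at this
    linear_combination -this
  have hexp : ∀ c : Fin 3 → ℂ, (fun i => (C (c i) : P3)) ⬝ᵥ M.mulVec (fun i => C (c i)) =
      C (c 0) ^ 2 * M 0 0 + C (c 1) ^ 2 * M 1 1 + C (c 2) ^ 2 * M 2 2 +
      2 * C (c 0) * C (c 1) * M 0 1 + 2 * C (c 0) * C (c 2) * M 0 2 +
      2 * C (c 1) * C (c 2) * M 1 2 := by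
    intro c
    simp only [dotProduct, mulVec, Fin.sum_univ_three]
    rw [s1, s2, s3]
    ring
  by_cases h0 : M 0 0 = 0
  · refine ⟨![1, 0, 0], ?_, Or.inl ?_⟩
    · intro h
      have := congrFun h 0
      simp at this
    · rw [hexp]
      simp [h0]
  rcases sqfree_or_sq (h2 0 0) h0 with hsq | ⟨l, hl, hl2⟩
  · have h3 : M 0 0 ∣ M 0 1 := (hsq.dvd_pow_iff_dvd two_ne_zero).mp ⟨_, m1.symm⟩
    obtain ⟨κ, hκ⟩ := eq_C_mul (h2 0 0) h0 (h2 0 1) h3
    have h4 : M 1 1 = C κ ^ 2 * M 0 0 := by
      apply mul_left_cancel₀ h0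
      rw [m1, hκ]
      ring
    refine ⟨![κ, -1, 0], ?_, Or.inl ?_⟩
    · intro h
      have := congrFun h 1
      simp at this
    · rw [hexp]
      simp only [Matrix.cons_val_zero, Matrix.cons_val_one, Matrix.cons_val, C_0, C_neg, C_1]
      rw [h4, hκ]
      ring
  · have hl0 : l ≠ 0 := by
      rintro rfl
      exact h0 (by rw [hl2]; ring)
    have key : ∀ r t : P3, r.IsHomogeneous 2 → t.IsHomogeneous 2 → M 0 0 * r = t ^ 2 →
        ∃ l' : P3, l'.IsHomogeneous 1 ∧ r = l' ^ 2 ∧ t = l * l' := by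
      intro r t _ ht hrt
      have h3 : l ^ 2 ∣ t ^ 2 := ⟨r, by rw [← hrt, hl2]⟩
      have h4 : l ∣ t := (UniqueFactorizationMonoid.pow_dvd_pow_iff_dvd (two_ne_zero)).mp h3
      obtain ⟨l', hl'⟩ := h4
      refine ⟨l', ?_, ?_, hl'⟩
      · by_cases h5 : l' = 0
        · rw [h5]
          exact isHomogeneous_zero _ _ _
        · obtain ⟨a, b, ha, hb, hab⟩ := Helper16.hom_factor (p := l) (q := l')
            (by rw [← hl']; exact ht) (mul_ne_zero hl0 h5)
          have h6 : a = 1 := ha.inj_right hl hl0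
          obtain rfl : b = 1 := by omega
          exact hb
      · apply mul_left_cancel₀ h0
        rw [hrt, hl', hl2]
        ring
    obtain ⟨l1, hl1, e11, e01⟩ := key (M 1 1) (M 0 1) (h2 1 1) (h2 0 1) m1
    obtain ⟨l2, hl2', e22, e02⟩ := key (M 2 2) (M 0 2) (h2 2 2) (h2 0 2) m2
    have e12 : M 1 2 = l1 * l2 := by
      apply mul_left_cancel₀ h0
      rw [m3, e01, e02, hl2]
      ring
    have hsq : ∀ c : Fin 3 → ℂ, (fun i => (C (c i) : P3)) ⬝ᵥ M.mulVec (fun i => C (c i)) =
        (C (c 0) * l + C (c 1) * l1 + C (c 2) * l2) ^ 2 := by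
      intro c
      rw [hexp, hl2, e11, e22, e01, e02, e12]
      ring
    -- the coefficients of the three linear forms
    obtain ⟨L, hL⟩ : ∃ L : Fin 3 → P3, L = ![l, l1, l2] := ⟨_, rfl⟩
    have hLh : ∀ i, (L i).IsHomogeneous 1 := by
      intro i
      rw [hL]
      fin_cases i
      · exact hl
      · exact hl1
      · exact hl2'
    obtain ⟨B, hB⟩ : ∃ B : Matrix (Fin 3) (Fin 3) ℂ,
      B = Matrix.of fun k i => coeff (Finsupp.single k 1) (L i) := ⟨_, rfl⟩
    have hLB : ∀ c : Fin 3 → ℂ, C (c 0) * l + C (c 1) * l1 + C (c 2) * l2 =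
        ∑ k, C (B.mulVec c k) * X k := by
      intro c
      have h3 : C (c 0) * l + C (c 1) * l1 + C (c 2) * l2 = ∑ i, C (c i) * L i := by
        rw [Fin.sum_univ_three, hL]
        rfl
      rw [h3]
      have h4 : ∀ i, C (c i) * L i = ∑ k, C (c i * coeff (Finsupp.single k 1) (L i)) * X k := by
        intro i
        conv_lhs => rw [linear_eq (hLh i)]
        rw [Finset.mul_sum]
        refine Finset.sum_congr rfl fun k _ => ?_
        rw [C_mul]
        ring
      rw [Finset.sum_congr rfl fun i _ => h4 i, Finset.sum_comm]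
      refine Finset.sum_congr rfl fun k _ => ?_
      rw [← Finset.sum_mul, ← map_sum]
      congr 2
      rw [Matrix.mulVec, dotProduct]
      refine Finset.sum_congr rfl fun i _ => ?_
      rw [hB, Matrix.of_apply, mul_comm]
    by_cases hdet : B.det = 0
    · obtain ⟨c, hc0, hc⟩ := Matrix.exists_mulVec_eq_zero_iff.mpr hdet
      refine ⟨c, hc0, Or.inl ?_⟩
      rw [hsq, hLB, hc]
      simp
    · have hu : IsUnit B.det := isUnit_iff_ne_zero.mpr hdet
      have hc : B.mulVec (B⁻¹.mulVec (Pi.single 0 1)) = Pi.single 0 1 := by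
        rw [Matrix.mulVec_mulVec, Matrix.mul_nonsing_inv B hu, Matrix.one_mulVec]
      refine ⟨B⁻¹.mulVec (Pi.single 0 1), ?_, Or.inr ?_⟩
      · intro h
        rw [h, Matrix.mulVec_zero] at hc
        have := congrFun hc 0
        simp at this
      · rw [hsq, hLB, hc]
        rw [Fin.sum_univ_three]
        simp

/-- exponents of positive degree -/
theorem exists_single {d : Fin 3 →₀ ℕ} {n : ℕ} (hd : d.degree = n + 1) :
    ∃ (k : Fin 3) (e : Fin 3 →₀ ℕ), d = Finsupp.single k 1 + e ∧ e.degree = n := by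
  have h4 : ∃ k, d k ≠ 0 := by
    by_contra h4
    push Not at h4
    have : d = 0 := Finsupp.ext h4
    rw [this, map_zero] at hd
    omega
  obtain ⟨k, hk⟩ := h4
  have h5 : Finsupp.single k 1 ≤ d := by
    rw [Finsupp.single_le_iff]; omega
  obtain ⟨e, he⟩ := exists_add_of_le h5
  refine ⟨k, e, he, ?_⟩
  rw [he, map_add, Finsupp.degree_single] at hd
  omega

/-- a quadratic form has a symmetric matrix -/
theorem quad_coef {f : P3} (hf : f.IsHomogeneous 2) :
    ∃ q : Fin 3 → Fin 3 → ℂ, (∀ i j, q i j = q j i) ∧ f = ∑ i, ∑ j, C (q i j) * (X i * X j) := by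
  classical
  rw [f.as_sum]
  apply Finset.sum_induction (fun d => monomial d (coeff d f))
    (fun g : P3 => ∃ q : Fin 3 → Fin 3 → ℂ, (∀ i j, q i j = q j i) ∧
      g = ∑ i, ∑ j, C (q i j) * (X i * X j))
  · rintro g h ⟨q, hq, rfl⟩ ⟨r, hr, rfl⟩
    refine ⟨fun i j => q i j + r i j, fun i j => by
      change q i j + r i j = q j i + r j i
      rw [hq, hr], ?_⟩
    rw [← Finset.sum_add_distrib]
    refine Finset.sum_congr rfl fun i _ => ?_
    rw [← Finset.sum_add_distrib]
    refine Finset.sum_congr rfl fun j _ => ?_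
    rw [C_add]
    ring
  · exact ⟨fun _ _ => 0, fun _ _ => rfl, by simp⟩
  · intro d hd
    have h3 : d.degree = 1 + 1 := by
      rw [Finsupp.degree_eq_weight_one]; exact hf (mem_support_iff.mp hd)
    obtain ⟨k, e, hk, he⟩ := exists_single h3
    obtain ⟨l, e', hl, he'⟩ := exists_single (n := 0) he
    rw [Finsupp.degree_eq_zero_iff] at he'
    obtain ⟨c, hc⟩ : ∃ c : ℂ, c = coeff d f := ⟨_, rfl⟩
    rw [← hc]
    have h5 : (monomial d c : P3) = C c * (X k * X l) := by
      rw [hk, hl, he', add_zero, X, X, C_apply, monomial_mul, monomial_mul, zero_add, mul_one,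
        mul_one]
    rw [h5]
    refine ⟨fun i j => (if i = k ∧ j = l then c / 2 else 0) + (if i = l ∧ j = k then c / 2 else 0),
      fun i j => ?_, ?_⟩
    · change (if i = k ∧ j = l then c / 2 else 0) + (if i = l ∧ j = k then c / 2 else 0) =
        (if j = k ∧ i = l then c / 2 else 0) + (if j = l ∧ i = k then c / 2 else 0)
      rw [add_comm]
      congr 1
      · exact if_congr and_comm rfl rfl
      · exact if_congr and_comm rfl rfl
    · have key : ∀ a b : Fin 3, (∑ i, ∑ j, C (if i = a ∧ j = b then c / 2 else 0) * (X i * X j) : P3)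
          = C (c / 2) * (X a * X b) := by
        intro a b
        rw [Finset.sum_eq_single a, Finset.sum_eq_single b]
        · rw [if_pos ⟨rfl, rfl⟩]
        · intro j _ hj
          rw [if_neg (fun h => hj h.2), C_0, zero_mul]
        · intro h
          exact absurd (Finset.mem_univ _) h
        · intro i _ hi
          apply Finset.sum_eq_zero
          intro j _
          rw [if_neg (fun h => hi h.1), C_0, zero_mul]
        · intro h
          exact absurd (Finset.mem_univ _) h
      have h6 : (∑ i, ∑ j, C ((if i = k ∧ j = l then c / 2 else 0) +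
          (if i = l ∧ j = k then c / 2 else 0)) * (X i * X j) : P3) =
          (∑ i, ∑ j, C (if i = k ∧ j = l then c / 2 else 0) * (X i * X j)) +
          ∑ i, ∑ j, C (if i = l ∧ j = k then c / 2 else 0) * (X i * X j) := by
        rw [← Finset.sum_add_distrib]
        refine Finset.sum_congr rfl fun i _ => ?_
        rw [← Finset.sum_add_distrib]
        refine Finset.sum_congr rfl fun j _ => ?_
        rw [C_add]
        ring
      rw [h6, key, key]
      have h7 : (C c : P3) = C (c / 2) + C (c / 2) := by rw [← C_add]; congr 1; ring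
      rw [h7]
      ring

/-- symmetric matrices of quadratic forms -/
theorem exists_cof (M : Matrix (Fin 3) (Fin 3) P3) (hM : M.IsSymm)
    (h2 : ∀ i j, (M i j).IsHomogeneous 2) :
    ∃ a : Pool.Agent.Helper89.VE.Cof, a.Symm ∧ Pool.Agent.Helper89.VE.MX a = M := by
  classical
  choose q hq1 hq2 using fun k l => quad_coef (h2 k l)
  refine ⟨fun i j k l => q (min k l) (max k l) i j, ⟨fun i j k l => hq1 _ _ _ _, fun i j k l => ?_⟩,
    ?_⟩
  · change q (min k l) (max k l) i j = q (min l k) (max l k) i j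
    rw [min_comm, max_comm]
  · ext1 k l
    rw [Pool.Agent.Helper89.VE.MX, Matrix.of_apply]
    rcases le_total k l with h | h
    · rw [min_eq_left h, max_eq_right h]
      exact (hq2 k l).symm
    · rw [min_eq_right h, max_eq_left h]
      exact (hq2 l k).symm.trans (hM.apply k l)

end Pool.Agent.Helper82.OS
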